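import Pool.Agent.P8H39.CoDeg.Build

/-!
# The codegree Turán density of `K_{k+1}^k` tends to `1`

The statement of Q1 (`π_{k-1}(K_{k+1}^k) = 1/2` for all `k ≥ 2`) is false: the density tends to `1` as
`k` tends to infinity.

Construction (of the family of non-edges). Divide the vertices into `l` classes. A rule assigns to
the type (numbers of elements in the classes) of every `(k+1)`-set `S` a class `c` in which `S` has more
than `h` elements, such that for every type `a` of `(k-1)`-sets there are at most two classes `c`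
for which `c` is assigned to `a + 2 e_c`: divide the circle into consecutive arcs of lengths
proportional to `max(x_c - h, 0)` and take the arc containing the point `- ∑ j x_j / (2 l)`.
The set `S` contains a non-edge `S - u` with `u` in its class `c`: the elements of `S` outside of the
class `c` give a random colouring of the class with many colours, and `S - u` is a non-edge if the
sum of the colours of its elements in the class `c` is `0`, or if some colour is missing. Given a
`(k-1)`-set, a vertex `v` extends it to a non-edge only if `v` belongs to one of at most two classes,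
or if a random event of small probability happens, independently for the different `v`.
-/

set_option autoImplicit false

open Finset Filter Topology

namespace Pool.Agent.Results.MP_af2786_co.TendsToOne

/-- The `k`-graph `H` on the vertices `Fin n` contains a copy of `K_{k+1}^k`: some injection of the
`k + 1` vertices sends every `k`-subset to an edge. -/
def ContainsClique (k : ℕ) {n : ℕ} (H : Finset (Finset (Fin n))) : Prop :=
  ∃ f : Fin (k + 1) → Fin n, Function.Injective f ∧
    ∀ e : Finset (Fin (k + 1)), e.card = k → e.image f ∈ H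

/-- The codegree of the set `T`: the number of vertices `v ∉ T` such that `T ∪ {v}` is an edge. -/
def codegree {n : ℕ} (H : Finset (Finset (Fin n))) (T : Finset (Fin n)) : ℕ :=
  (univ.filter fun v => v ∉ T ∧ insert v T ∈ H).card

/-- The minimum codegree `δ_{k-1}(H)`: the least codegree of a set of `k - 1` vertices. -/
noncomputable def minCodegree (k : ℕ) {n : ℕ} (H : Finset (Finset (Fin n))) : ℕ :=
  sInf {d : ℕ | ∃ T : Finset (Fin n), T.card + 1 = k ∧ codegree H T = d}

/-- `ex_{k-1}(n, K_{k+1}^k)`: the largest minimum codegree of a `k`-graph on `n` vertices without a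
copy of `K_{k+1}^k`. -/
noncomputable def exCodegree (k n : ℕ) : ℕ :=
  sSup {d : ℕ | ∃ H : Finset (Finset (Fin n)), (∀ e ∈ H, e.card = k) ∧ ¬ ContainsClique k H ∧
    minCodegree k H = d}

/-- The codegree Turán density `π_{k-1}(K_{k+1}^k)`, the upper limit of `ex_{k-1}(n, K_{k+1}^k) / n`. -/
noncomputable def codegreeDensity (k : ℕ) : ℝ :=
  limsup (fun n : ℕ => (exCodegree k n : ℝ) / (n : ℝ)) atTop

/-- the hypergraphs -/
theorem explicit (ε : ℝ) (hε : 0 < ε) : ∃ k₀ : ℕ, ∀ k : ℕ, k₀ ≤ k → ∃ n₀ : ℕ, ∀ n : ℕ, n₀ ≤ n →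
    ∃ H : Finset (Finset (Fin n)), (∀ e ∈ H, e.card = k) ∧ ¬ ContainsClique k H ∧
      ∀ T : Finset (Fin n), T.card + 1 = k → (1 - ε) * (n : ℝ) ≤ (codegree H T : ℝ) := by
  classical
  obtain ⟨l, hl⟩ := exists_nat_gt (6 / ε)
  have hl0 : (0 : ℝ) < l := lt_of_le_of_lt (by positivity) hl
  have hl0' : 0 < l := by exact_mod_cast hl0
  have hl3 : 3 / (l : ℝ) ≤ ε / 2 := by
    rw [div_le_div_iff₀ hl0 (by norm_num)]
    rw [div_lt_iff₀ hε] at hl
    linarith
  obtain ⟨k₀, hk₀⟩ := Pool.Agent.P8H39.CoDeg.construction l hl0'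
  refine ⟨k₀, fun k hk => ?_⟩
  obtain ⟨N, hN⟩ := exists_nat_gt (2 * ((k : ℝ) + l + 2) / ε)
  refine ⟨N + 1, fun n hn => ?_⟩
  obtain ⟨B, hB1, hB2, hB3⟩ := hk₀ k hk n (by omega)
  refine ⟨(univ : Finset (Finset (Fin n))).filter fun e => e.card = k ∧ e ∉ B, ?_, ?_, ?_⟩
  · intro e he
    exact (mem_filter.mp he).2.1
  · rintro ⟨f, hf, hall⟩
    have hS : ((univ : Finset (Fin (k + 1))).image f).card = k + 1 := by
      rw [card_image_of_injective _ hf, card_univ, Fintype.card_fin]
    obtain ⟨u, hu, hb⟩ := hB2 _ hS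
    rw [mem_image] at hu
    obtain ⟨i, -, rfl⟩ := hu
    have h1 := hall (univ.erase i) (by
      rw [card_erase_of_mem (mem_univ _), card_univ, Fintype.card_fin, Nat.add_sub_cancel])
    rw [image_erase hf] at h1
    exact (mem_filter.mp h1).2.2 hb
  · intro T hT
    have h1 := hB3 T hT
    have h2 : (univ.filter fun v => v ∉ T).card = n - T.card := by
      have : (univ.filter fun v => v ∉ T) = Tᶜ := by ext; simp
      rw [this, card_compl, Fintype.card_fin]
    have h3 : (univ.filter fun v => v ∉ T) ⊆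
        (univ.filter fun v => v ∉ T ∧ insert v T ∈
          (univ : Finset (Finset (Fin n))).filter fun e => e.card = k ∧ e ∉ B) ∪
        (univ.filter fun v => v ∉ T ∧ insert v T ∈ B) := by
      intro v hv
      rw [mem_filter] at hv
      rw [mem_union]
      by_cases hb : insert v T ∈ B
      · exact Or.inr (mem_filter.mpr ⟨mem_univ _, hv.2, hb⟩)
      · refine Or.inl (mem_filter.mpr ⟨mem_univ _, hv.2, mem_filter.mpr ⟨mem_univ _, ?_, hb⟩⟩)
        rw [card_insert_of_notMem hv.2, hT]
    have h4 := (card_le_card h3).trans (card_union_le _ _)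
    rw [h2] at h4
    have h5 : n ≤ codegree ((univ : Finset (Finset (Fin n))).filter fun e => e.card = k ∧ e ∉ B) T +
        (2 * (n / l + 1) + l * (n / l ^ 2 + 1)) + k := by
      unfold codegree
      omega
    have h6 : (n : ℝ) ≤ (codegree ((univ : Finset (Finset (Fin n))).filter fun e => e.card = k ∧ e ∉ B) T : ℝ) +
        (2 * (((n / l : ℕ) : ℝ) + 1) + l * (((n / l ^ 2 : ℕ) : ℝ) + 1)) + k := by exact_mod_cast h5
    have h7 : ((n / l : ℕ) : ℝ) ≤ n / l := Nat.cast_div_le
    have h8 : ((n / l ^ 2 : ℕ) : ℝ) ≤ n / (l : ℝ) ^ 2 := by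
      have := @Nat.cast_div_le ℝ _ _ _ n (l ^ 2)
      rwa [Nat.cast_pow] at this
    have h9 : (l : ℝ) * (n / (l : ℝ) ^ 2) = n / l := by
      field_simp
    have h10 : (l : ℝ) * ((n / l ^ 2 : ℕ) : ℝ) ≤ n / l := by
      rw [← h9]
      exact mul_le_mul_of_nonneg_left h8 hl0.le
    have h11 : 3 * ((n : ℝ) / l) ≤ ε / 2 * n := by
      calc 3 * ((n : ℝ) / l) = 3 / l * n := by ring
        _ ≤ ε / 2 * n := mul_le_mul_of_nonneg_right hl3 (Nat.cast_nonneg n)
    have hn' : 2 * ((k : ℝ) + l + 2) / ε < n := hN.trans (by exact_mod_cast hn)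
    rw [div_lt_iff₀ hε] at hn'
    linarith

theorem codegree_le {n : ℕ} (H : Finset (Finset (Fin n))) (T : Finset (Fin n)) :
    codegree H T ≤ n := by
  unfold codegree
  exact (card_le_univ _).trans (by rw [Fintype.card_fin])

theorem minCodegree_le {n k : ℕ} (H : Finset (Finset (Fin n))) :
    minCodegree k H ≤ n := by
  unfold minCodegree
  rcases Set.eq_empty_or_nonempty {d : ℕ | ∃ T : Finset (Fin n), T.card + 1 = k ∧ codegree H T = d}
    with h | h
  · rw [h]; simp
  · obtain ⟨T, -, h2⟩ := Nat.sInf_mem h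
    rw [← h2]
    exact codegree_le H T

theorem bdd (k n : ℕ) : BddAbove {d : ℕ | ∃ H : Finset (Finset (Fin n)), (∀ e ∈ H, e.card = k) ∧
    ¬ ContainsClique k H ∧ minCodegree k H = d} := by
  refine ⟨n, ?_⟩
  rintro d ⟨H, -, -, rfl⟩
  exact minCodegree_le H

theorem exCodegree_le (k n : ℕ) : exCodegree k n ≤ n := by
  unfold exCodegree
  rcases Set.eq_empty_or_nonempty {d : ℕ | ∃ H : Finset (Finset (Fin n)), (∀ e ∈ H, e.card = k) ∧
    ¬ ContainsClique k H ∧ minCodegree k H = d} with h | h
  · rw [h]; simp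
  · obtain ⟨H, -, -, h2⟩ := Nat.sSup_mem h (bdd k n)
    rw [← h2]
    exact minCodegree_le H

theorem ratio_le (k n : ℕ) : (exCodegree k n : ℝ) / (n : ℝ) ≤ 1 := by
  refine div_le_one_of_le₀ ?_ (Nat.cast_nonneg n)
  exact_mod_cast exCodegree_le k n

theorem density_le (k : ℕ) : codegreeDensity k ≤ 1 := by
  unfold codegreeDensity
  refine limsup_le_of_le ?_ (Eventually.of_forall fun n => ratio_le k n)
  exact IsCoboundedUnder.of_frequently_ge (a := 0)
    (Eventually.of_forall fun n => by positivity).frequently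

theorem le_density (k : ℕ) (hk : 1 ≤ k) (c : ℝ)
    (h : ∃ n₀ : ℕ, ∀ n : ℕ, n₀ ≤ n →
      ∃ H : Finset (Finset (Fin n)), (∀ e ∈ H, e.card = k) ∧ ¬ ContainsClique k H ∧
        ∀ T : Finset (Fin n), T.card + 1 = k → c * (n : ℝ) ≤ (codegree H T : ℝ)) :
    c ≤ codegreeDensity k := by
  obtain ⟨n₀, h⟩ := h
  unfold codegreeDensity
  refine le_limsup_of_frequently_le (Eventually.frequently ?_)
    (isBoundedUnder_of ⟨1, fun n => ratio_le k n⟩)
  filter_upwards [eventually_ge_atTop n₀, eventually_ge_atTop k, eventually_gt_atTop 0]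
    with n h1 h2 h3
  obtain ⟨H, hH1, hH2, hH3⟩ := h n h1
  have hn : (0 : ℝ) < n := by exact_mod_cast h3
  rw [le_div_iff₀ hn]
  have h4 : minCodegree k H ≤ exCodegree k n := le_csSup (bdd k n) ⟨H, hH1, hH2, rfl⟩
  have h5 : {d : ℕ | ∃ T : Finset (Fin n), T.card + 1 = k ∧ codegree H T = d}.Nonempty := by
    obtain ⟨T, -, hT⟩ := exists_subset_card_eq
      (show k - 1 ≤ (univ : Finset (Fin n)).card by rw [card_univ, Fintype.card_fin]; omega)
    exact ⟨_, T, by omega, rfl⟩
  obtain ⟨T, hT1, hT2⟩ := Nat.sInf_mem h5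
  calc c * (n : ℝ) ≤ codegree H T := hH3 T hT1
    _ = minCodegree k H := by rw [hT2]; rfl
    _ ≤ exCodegree k n := by exact_mod_cast h4

/-- **The codegree Turán density of `K_{k+1}^k` tends to `1`; in particular it is not `1/2` for all
`k ≥ 2`.** Moreover, for every `ε > 0` and every `k ≥ k₀(ε)` there are, for all large `n`, `k`-graphs
on `n` vertices without a copy of `K_{k+1}^k` in which every `(k-1)`-set of vertices has codegree at
least `(1 - ε) n`. -/
theorem result :
    (∀ ε : ℝ, 0 < ε → ∃ k₀ : ℕ, ∀ k : ℕ, k₀ ≤ k → ∃ n₀ : ℕ, ∀ n : ℕ, n₀ ≤ n →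
      ∃ H : Finset (Finset (Fin n)), (∀ e ∈ H, e.card = k) ∧ ¬ ContainsClique k H ∧
        ∀ T : Finset (Fin n), T.card + 1 = k → (1 - ε) * (n : ℝ) ≤ (codegree H T : ℝ)) ∧
    Tendsto codegreeDensity atTop (𝓝 1) ∧
    ¬ (∀ k : ℕ, 2 ≤ k → codegreeDensity k = 1 / 2) := by
  have hlim : Tendsto codegreeDensity atTop (𝓝 1) := by
    rw [Metric.tendsto_atTop]
    intro ε hε
    obtain ⟨k₀, hk₀⟩ := explicit (min (ε / 2) 1) (by positivity)
    refine ⟨max k₀ 1, fun k hk => ?_⟩
    have h1 := le_density k (le_trans (le_max_right _ _) hk) (1 - min (ε / 2) 1)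
      (hk₀ k (le_trans (le_max_left _ _) hk))
    have h2 := density_le k
    have h3 := min_le_left (ε / 2) 1
    rw [Real.dist_eq, abs_lt]
    constructor <;> linarith
  refine ⟨explicit, hlim, fun hcon => ?_⟩
  have h1 : Tendsto codegreeDensity atTop (𝓝 (1 / 2)) := by
    refine tendsto_const_nhds.congr' ?_
    filter_upwards [eventually_ge_atTop 2] with k hk
    exact (hcon k hk).symm
  have := tendsto_nhds_unique hlim h1
  norm_num at this

end Pool.Agent.Results.MP_af2786_co.TendsToOne
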